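import Mathlib

namespace MP155

open Finset

/-- The set of multinomial coefficients `n! / (i_1! ... i_k!)` with upper entry `n`, over all
`k ≥ 1` and all `i_1, ..., i_k ≥ 0` with sum `n`. -/
def multinomialValues (n : ℕ) : Set ℕ :=
  {v | ∃ (k : ℕ) (i : Fin k → ℕ), 1 ≤ k ∧ ∑ j, i j = n ∧ v = n.factorial / ∏ j, (i j).factorial}

/-- The number of distinct multinomial coefficients with upper entry `n`. -/
noncomputable def M (n : ℕ) : ℕ := (multinomialValues n).ncard

/-- The prime number with index `j`, starting from `pr 0 = 2`. -/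
noncomputable def pr (j : ℕ) : ℕ := Nat.nth Nat.Prime j

lemma pr_prime (j : ℕ) : (pr j).Prime := Nat.prime_nth_prime j

lemma pr_strictMono : StrictMono pr := Nat.nth_strictMono Nat.infinite_setOfPred_prime

lemma pr_ge (j : ℕ) : j + 2 ≤ pr j := Nat.add_two_le_nth_prime j

lemma fact_antitone {p q m : ℕ} (hp : p.Prime) (hq : q.Prime) (hpq : p ≤ q) :
    m.factorial.factorization q ≤ m.factorial.factorization p := by
  have hb : Nat.log p m < Nat.log p m + 1 := Nat.lt_succ_self _
  have hb' : Nat.log q m < Nat.log p m + 1 := 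
    Nat.lt_succ_of_le (Nat.log_anti_left hp.one_lt hpq)
  rw [Nat.factorization_factorial hp hb, Nat.factorization_factorial hq hb']
  apply Finset.sum_le_sum
  intro i hi
  exact Nat.div_le_div_left (Nat.pow_le_pow_left hpq i) (Nat.pow_pos hp.pos)

lemma fact_bound {p m : ℕ} (hp : p.Prime) :
    m.factorial.factorization p * (p - 1) ≤ m := by
  have := Fact.mk hp
  have h := sub_one_mul_padicValNat_factorial (p := p) m
  rw [Nat.factorization_def _ hp, mul_comm, h]
  exact Nat.sub_le _ _

/-- The exponent sequence of a product of factorials. -/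
noncomputable def E (P : ℕ) (j : ℕ) : ℕ := P.factorization (pr j)

variable {n k : ℕ} {i : Fin k → ℕ}

lemma fac_prod (i : Fin k → ℕ) (p : ℕ) :
    (∏ j, (i j).factorial).factorization p = ∑ j, ((i j).factorial).factorization p := by
  rw [Nat.factorization_prod]
  · simp
  · intro x _
    exact Nat.factorial_ne_zero _

lemma E_antitone (i : Fin k → ℕ) : Antitone (E (∏ j, (i j).factorial)) := by
  intro a b hab
  unfold E
  rw [fac_prod, fac_prod]
  apply Finset.sum_le_sum
  intro j _
  exact fact_antitone (pr_prime a) (pr_prime b) (pr_strictMono.monotone hab)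

lemma E_bound (hi : ∑ j, i j = n) (a : ℕ) : E (∏ j, (i j).factorial) a * (pr a - 1) ≤ n := by
  unfold E
  rw [fac_prod, Finset.sum_mul, ← hi]
  apply Finset.sum_le_sum
  intro j _
  exact fact_bound (pr_prime a)

lemma E_zero (hi : ∑ j, i j = n) {a : ℕ} (ha : n ≤ a) : E (∏ j, (i j).factorial) a = 0 := by
  have h1 := E_bound hi a
  have h2 := pr_ge a
  by_contra h
  have h3 : 1 ≤ E (∏ j, (i j).factorial) a := Nat.one_le_iff_ne_zero.mpr h
  have : 1 * (pr a - 1) ≤ E (∏ j, (i j).factorial) a * (pr a - 1) := Nat.mul_le_mul_right _ h3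
  omega

/-- Differences -/
noncomputable def D (n : ℕ) (P : ℕ) : Fin n → ℕ := fun j => E P j - E P (j + 1)

/-- a counting bound -/
lemma count_bound {R : ℕ} (c : Fin R → ℝ) (hc : ∀ j, 0 < c j) (N : ℝ) (S : Finset (Fin R → ℕ))
    (hS : ∀ d ∈ S, ∑ j, c j * (d j : ℝ) ≤ N) :
    (S.card : ℝ) ≤ Real.exp N * ∏ j, (1 - Real.exp (- c j))⁻¹ := by
  obtain ⟨B, hB⟩ : ∃ B : ℕ, ∀ d ∈ S, ∀ j, d j < B := by
    refine ⟨(S.sup fun d => ∑ j, d j) + 1, fun d hd j => ?_⟩
    have h1 : d j ≤ ∑ j, d j := Finset.single_le_sum (fun _ _ => Nat.zero_le _) (Finset.mem_univ j)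
    have h2 : (∑ j, d j) ≤ S.sup fun d => ∑ j, d j := Finset.le_sup (f := fun d => ∑ j, d j) hd
    omega
  have hsub : S ⊆ Fintype.piFinset (fun _ : Fin R => Finset.range B) := by
    intro d hd
    rw [Fintype.mem_piFinset]
    intro j
    exact Finset.mem_range.mpr (hB d hd j)
  calc (S.card : ℝ) = ∑ d ∈ S, (1 : ℝ) := by simp
    _ ≤ ∑ d ∈ S, Real.exp N * ∏ j, (Real.exp (- c j)) ^ (d j) := by
        apply Finset.sum_le_sum
        intro d hd
        have h1 : ∏ j, (Real.exp (- c j)) ^ (d j) = Real.exp (- ∑ j, c j * (d j : ℝ)) := by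
          rw [← Finset.sum_neg_distrib, Real.exp_sum]
          apply Finset.prod_congr rfl
          intro j _
          rw [← Real.exp_nat_mul]
          congr 1
          ring
        rw [h1, ← Real.exp_add]
        apply Real.one_le_exp
        linarith [hS d hd]
    _ ≤ ∑ d ∈ Fintype.piFinset (fun _ : Fin R => Finset.range B), 
          Real.exp N * ∏ j, (Real.exp (- c j)) ^ (d j) := by
        apply Finset.sum_le_sum_of_subset_of_nonneg hsub
        intro d _ _
        positivity
    _ = Real.exp N * ∏ j, ∑ a ∈ Finset.range B, (Real.exp (- c j)) ^ a := by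
        rw [← Finset.mul_sum, Finset.prod_univ_sum]
    _ ≤ Real.exp N * ∏ j, (1 - Real.exp (- c j))⁻¹ := by
        apply mul_le_mul_of_nonneg_left _ (Real.exp_pos N).le
        apply Finset.prod_le_prod
        · intro j _
          positivity
        · intro j _
          have hy0 : 0 ≤ Real.exp (- c j) := (Real.exp_pos _).le
          have hy1 : Real.exp (- c j) < 1 := by
            rw [Real.exp_lt_one_iff]
            linarith [hc j]
          rw [← tsum_geometric_of_lt_one hy0 hy1]
          exact (summable_geometric_of_lt_one hy0 hy1).sum_le_tsum _ (fun _ _ => by positivity)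


/-- The set of products of factorials. -/
def prodValues (n : ℕ) : Set ℕ :=
  {v | ∃ (k : ℕ) (i : Fin k → ℕ), 1 ≤ k ∧ ∑ j, i j = n ∧ v = ∏ j, (i j).factorial}

lemma prodValues_finite (n : ℕ) : (prodValues n).Finite := by
  apply (Set.finite_Icc 0 n.factorial).subset
  rintro v ⟨k, i, hk, hi, rfl⟩
  refine ⟨Nat.zero_le _, Nat.le_of_dvd (Nat.factorial_pos _) ?_⟩
  rw [← hi]
  exact Nat.prod_factorial_dvd_factorial_sum Finset.univ i

lemma multinomialValues_eq (n : ℕ) :
    multinomialValues n = (fun P => n.factorial / P) '' prodValues n := by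
  ext v
  constructor
  · rintro ⟨k, i, hk, hi, rfl⟩
    exact ⟨_, ⟨k, i, hk, hi, rfl⟩, rfl⟩
  · rintro ⟨P, ⟨k, i, hk, hi, rfl⟩, rfl⟩
    exact ⟨k, i, hk, hi, rfl⟩

lemma multinomialValues_finite (n : ℕ) : (multinomialValues n).Finite := by
  rw [multinomialValues_eq]
  exact (prodValues_finite n).image _

lemma M_le_ncard (n : ℕ) : M n ≤ (prodValues n).ncard := by
  unfold M
  rw [multinomialValues_eq]
  exact Set.ncard_image_le (prodValues_finite n)

/-- The difference vector. -/
noncomputable def Df (R : ℕ) (P : ℕ) : Fin R → ℕ := fun j => E P j - E P (j + 1)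

lemma E_inj {P Q : ℕ} (hP : P ≠ 0) (hQ : Q ≠ 0) (h : ∀ j, E P j = E Q j) : P = Q := by
  apply Nat.eq_of_factorization_eq hP hQ
  intro p
  by_cases hp : p.Prime
  · have h1 := h (Nat.count Nat.Prime p)
    unfold E pr at h1
    rwa [Nat.nth_count hp] at h1
  · rw [Nat.factorization_eq_zero_of_not_prime _ hp, Nat.factorization_eq_zero_of_not_prime _ hp]

lemma Df_injOn {n R : ℕ} (hR : n ≤ R) : Set.InjOn (Df R) (prodValues n) := by
  rintro P ⟨k, i, hk, hi, rfl⟩ Q ⟨k', i', hk', hi', rfl⟩ h
  have h1 : ∀ t ≤ R, E (∏ j, (i j).factorial) (R - t) = E (∏ j, (i' j).factorial) (R - t) := by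
    intro t
    induction t with
    | zero =>
      intro _
      rw [E_zero hi (by omega), E_zero hi' (by omega)]
    | succ t ih =>
      intro ht
      have ih' := ih (by omega)
      have h2 := congrFun h ⟨R - (t + 1), by omega⟩
      unfold Df at h2
      simp only at h2
      have e : R - (t + 1) + 1 = R - t := by omega
      rw [e] at h2
      have a1 : E (∏ j, (i j).factorial) (R - t) ≤ E (∏ j, (i j).factorial) (R - (t + 1)) :=
        E_antitone i (by omega)
      have a2 : E (∏ j, (i' j).factorial) (R - t) ≤ E (∏ j, (i' j).factorial) (R - (t + 1)) :=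
        E_antitone i' (by omega)
      omega
  apply E_inj
  · exact Finset.prod_ne_zero_iff.mpr fun _ _ => Nat.factorial_ne_zero _
  · exact Finset.prod_ne_zero_iff.mpr fun _ _ => Nat.factorial_ne_zero _
  · intro j
    by_cases hj : j ≤ R
    · have := h1 (R - j) (by omega)
      rwa [Nat.sub_sub_self hj] at this
    · rw [E_zero hi (by omega), E_zero hi' (by omega)]

lemma abel (b e : ℕ → ℝ) (m : ℕ) :
    ∑ j ∈ range m, (∑ l ∈ range (j + 1), b l) * (e j - e (j + 1)) + (∑ l ∈ range m, b l) * e m
      = ∑ l ∈ range m, b l * e l := by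
  induction m with
  | zero => simp
  | succ m ih =>
    rw [Finset.sum_range_succ _ m, Finset.sum_range_succ (fun l => b l * e l) m, ← ih]
    have : (∑ l ∈ range (m + 1), b l) = (∑ l ∈ range m, b l) + b m := Finset.sum_range_succ _ _
    rw [this]
    ring

/-- The key counting inequality. -/
lemma M_le {n R : ℕ} (hR : n ≤ R) (b : ℕ → ℝ) (hb0 : 0 < b 0) (hb : ∀ j, 0 ≤ b j)
    (u : ℕ → ℝ) (hu : ∀ P ∈ prodValues n, ∀ j, (E P j : ℝ) ≤ u j) :
    (M n : ℝ) ≤ Real.exp (∑ l ∈ range R, b l * u l) *
      ∏ j ∈ range R, (1 - Real.exp (- ∑ l ∈ range (j + 1), b l))⁻¹ := by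
  classical
  have hfin := prodValues_finite n
  set S : Finset (Fin R → ℕ) := hfin.toFinset.image (Df R) with hS
  have hcard : (prodValues n).ncard = S.card := by
    rw [hS, Finset.card_image_of_injOn, Set.ncard_eq_toFinset_card _ hfin]
    intro P hP Q hQ h
    exact Df_injOn hR (by simpa using hP) (by simpa using hQ) h
  have hc : ∀ j : Fin R, 0 < ∑ l ∈ range ((j : ℕ) + 1), b l := by
    intro j
    apply Finset.sum_pos' (fun l _ => hb l)
    exact ⟨0, by simp, hb0⟩
  have key := count_bound (fun j : Fin R => ∑ l ∈ range ((j : ℕ) + 1), b l) hc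
    (∑ l ∈ range R, b l * u l) S ?_
  · have h1 : (M n : ℝ) ≤ S.card := by
      rw [← hcard]
      exact_mod_cast M_le_ncard n
    refine h1.trans (key.trans (le_of_eq ?_))
    congr 1
    exact Fin.prod_univ_eq_prod_range
      (fun j => (1 - Real.exp (- ∑ l ∈ range (j + 1), b l))⁻¹) R
  · intro d hd
    rw [hS, Finset.mem_image] at hd
    obtain ⟨P, hP, rfl⟩ := hd
    rw [Set.Finite.mem_toFinset] at hP
    have hP' := hP
    obtain ⟨k, i, hk, hi, rfl⟩ := hP
    set P := ∏ j, (i j).factorial with hPdef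
    have h2 : ∑ j : Fin R, (∑ l ∈ range ((j : ℕ) + 1), b l) * ((Df R P j : ℕ) : ℝ)
        = ∑ j ∈ range R, (∑ l ∈ range (j + 1), b l) * ((E P j : ℝ) - (E P (j + 1) : ℝ)) := by
      rw [← Fin.sum_univ_eq_sum_range
        (fun j => (∑ l ∈ range (j + 1), b l) * ((E P j : ℝ) - (E P (j + 1) : ℝ))) R]
      apply Finset.sum_congr rfl
      intro j _
      congr 1
      unfold Df
      rw [Nat.cast_sub (E_antitone i (by omega))]
    rw [h2]
    have h3 := abel b (fun j => (E P j : ℝ)) R
    have h4 : (E P R : ℝ) = 0 := by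
      rw [hPdef, E_zero hi hR]
      simp
    simp only [h4, mul_zero, add_zero] at h3
    rw [h3]
    apply Finset.sum_le_sum
    intro l _
    exact mul_le_mul_of_nonneg_left (hu P hP' l) (hb l)

end MP155
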