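import Mathlib
import Pool.Agent.Lib.MP_155ab0_nt.Count

namespace MP155

open Finset

lemma pr_lower (l : ℕ) : ((l : ℝ) + 1) * Real.log (l + 2) ≤ 10 * ((pr l : ℝ) - 1) := by
  have h2 : (2 : ℝ) ≤ pr l := by exact_mod_cast (pr_prime l).two_le
  have h1 : (1 : ℝ) < pr l := by linarith
  have hl2 : ((l : ℝ) + 2) ≤ pr l := by exact_mod_cast pr_ge l
  have hpi := Chebyshev.pi_le_log4_mul_div h1
  have hcount : Nat.primeCounting ⌊(pr l : ℝ)⌋₊ = l + 1 := by
    rw [Nat.floor_natCast, Nat.primeCounting_eq_primeCounting'_succ]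
    unfold Nat.primeCounting' pr
    exact Nat.count_nth_succ_of_infinite Nat.infinite_setOfPred_prime l
  rw [hcount] at hpi
  set x : ℝ := ((pr l : ℕ) : ℝ) with hx
  have hlogpos : 0 < Real.log x := Real.log_pos h1
  have hsqrt : Real.log (√x) = Real.log x / 2 := Real.log_sqrt (by linarith)
  rw [hsqrt] at hpi
  have hsx : 0 < √x := Real.sqrt_pos.mpr (by linarith)
  have hlogle : Real.log x ≤ 2 * √x := by
    have := Real.log_le_sub_one_of_pos hsx
    rw [hsqrt] at this
    linarith
  have hss : √x * √x = x := Real.mul_self_sqrt (by linarith)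
  have h4 : Real.log 4 ≤ 1.4 := by
    have : (4 : ℝ) = 2 ^ 2 := by norm_num
    rw [this, Real.log_pow]
    have := Real.log_two_lt_d9
    push_cast
    linarith
  push_cast at hpi
  have h5 : ((l : ℝ) + 1) * Real.log x ≤ 2 * Real.log 4 * x + √x * Real.log x := by
    calc ((l : ℝ) + 1) * Real.log x ≤ (Real.log 4 * x / (Real.log x / 2) + √x) * Real.log x :=
          mul_le_mul_of_nonneg_right hpi hlogpos.le
      _ = 2 * Real.log 4 * x + √x * Real.log x := by
          field_simp
  have h6 : √x * Real.log x ≤ 2 * x := by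
    calc √x * Real.log x ≤ √x * (2 * √x) := mul_le_mul_of_nonneg_left hlogle hsx.le
      _ = 2 * (√x * √x) := by ring
      _ = 2 * x := by rw [hss]
  have h7 : ((l : ℝ) + 1) * Real.log (l + 2) ≤ ((l : ℝ) + 1) * Real.log x := by
    apply mul_le_mul_of_nonneg_left _ (by positivity)
    exact Real.log_le_log (by positivity) hl2
  have h8 : 2 * Real.log 4 * x ≤ 2.8 * x := by nlinarith
  nlinarith

lemma log_pos' (l : ℕ) : 0 < Real.log ((l : ℝ) + 2) := by
  apply Real.log_pos
  have : (0 : ℝ) ≤ l := Nat.cast_nonneg l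
  linarith

lemma E_real_bound {n : ℕ} (P : ℕ) (hP : P ∈ prodValues n) (l : ℕ) :
    (E P l : ℝ) ≤ 10 * n / (((l : ℝ) + 1) * Real.log (l + 2)) := by
  obtain ⟨k, i, hk, hi, rfl⟩ := hP
  have h1 := E_bound hi l
  set e := E (∏ j, (i j).factorial) l
  have h2 : (e : ℝ) * ((pr l : ℝ) - 1) ≤ n := by
    have h3 : ((e * (pr l - 1) : ℕ) : ℝ) ≤ n := by exact_mod_cast h1
    rw [Nat.cast_mul, Nat.cast_sub (pr_prime l).one_le] at h3
    simpa using h3
  have h3 := pr_lower l
  have h4 := log_pos' l
  rw [le_div_iff₀ (by positivity)]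
  calc (e : ℝ) * (((l : ℝ) + 1) * Real.log (l + 2)) ≤ e * (10 * ((pr l : ℝ) - 1)) :=
        mul_le_mul_of_nonneg_left h3 (Nat.cast_nonneg _)
    _ = 10 * (e * ((pr l : ℝ) - 1)) := by ring
    _ ≤ 10 * n := by linarith

/-- the weights -/
noncomputable def wt (r : ℕ) (l : ℕ) : ℝ :=
  if l < r then (2 * (l : ℝ) + 1) / (r : ℝ) ^ 2 else 2 * Real.log (((l : ℝ) + 1) / l)

lemma wt_nonneg (r l : ℕ) : 0 ≤ wt r l := by
  unfold wt
  split_ifs with h
  · positivity
  · rcases Nat.eq_zero_or_pos l with h0 | h0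
    · subst h0; simp
    · have h1 : (0 : ℝ) < l := by exact_mod_cast h0
      apply mul_nonneg (by norm_num)
      apply Real.log_nonneg
      rw [le_div_iff₀ h1]
      linarith

lemma wt_zero {r : ℕ} (hr : 1 ≤ r) : 0 < wt r 0 := by
  unfold wt
  rw [if_pos (by omega)]
  have : (0 : ℝ) < r := by exact_mod_cast hr
  simp
  positivity

lemma wt_sum_small {r m : ℕ} (hm : m ≤ r) :
    ∑ l ∈ range m, wt r l = (m : ℝ) ^ 2 / (r : ℝ) ^ 2 := by
  induction m with
  | zero => simp
  | succ m ih =>
    rw [Finset.sum_range_succ, ih (by omega)]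
    unfold wt
    rw [if_pos (by omega), ← add_div]
    push_cast
    ring

lemma wt_sum_large {r : ℕ} (hr : 1 ≤ r) (t : ℕ) :
    ∑ l ∈ range (r + t), wt r l = 1 + 2 * Real.log (((r : ℝ) + t) / r) := by
  have hr' : (0 : ℝ) < r := by exact_mod_cast hr
  induction t with
  | zero =>
    rw [add_zero, wt_sum_small le_rfl, Nat.cast_zero, add_zero, div_self hr'.ne', Real.log_one,
      div_self (by positivity)]
    ring
  | succ t ih =>
    rw [← add_assoc, Finset.sum_range_succ, ih]
    unfold wt
    rw [if_neg (by omega), Real.log_div (by positivity) (by positivity),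
      Real.log_div (by positivity) (by positivity), Real.log_div (by positivity) (by positivity)]
    push_cast
    ring_nf

/-- factorial lower bound in log form -/
lemma log_fact_sum (r : ℕ) (x : ℝ) (hx : 0 < x) :
    ∑ j ∈ range r, Real.log (x / ((j : ℝ) + 1)) ≤ x := by
  have h1 : ∑ j ∈ range r, Real.log (x / ((j : ℝ) + 1)) = Real.log (x ^ r / r.factorial) := by
    induction r with
    | zero => simp
    | succ r ih =>
      rw [Finset.sum_range_succ, ih, ← Real.log_mul (by positivity) (by positivity)]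
      congr 1
      rw [Nat.factorial_succ, pow_succ]
      push_cast
      field_simp
  rw [h1]
  have h2 := Real.pow_div_factorial_le_exp x hx.le r
  calc Real.log (x ^ r / r.factorial) ≤ Real.log (Real.exp x) :=
        Real.log_le_log (by positivity) h2
    _ = x := Real.log_exp x

lemma sum_inv_log {r : ℕ} (hr : 1 ≤ r) :
    ∑ j ∈ range r, 1 / Real.log ((j : ℝ) + 2) ≤ 4 * r / Real.log (r + 1) := by
  have hr' : (1 : ℝ) ≤ r := by exact_mod_cast hr
  have hL : 0 < Real.log ((r : ℝ) + 1) := Real.log_pos (by linarith)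
  rw [le_div_iff₀ hL, Finset.sum_mul]
  have hterm : ∀ j ∈ range r, 1 / Real.log ((j : ℝ) + 2) * Real.log (r + 1) ≤
      1 + 3 / 2 * Real.log (((r : ℝ) + 1) / ((j : ℝ) + 1)) := by
    intro j hj
    have hj' : ((j : ℝ) + 2) ≤ r + 1 := by
      have : j + 1 ≤ r := by simpa using hj
      have : ((j : ℝ) + 1) ≤ r := by exact_mod_cast this
      linarith
    have hj0 : (0 : ℝ) ≤ j := Nat.cast_nonneg j
    have hLj := log_pos' j
    have h2 : Real.log 2 ≤ Real.log ((j : ℝ) + 2) := Real.log_le_log (by norm_num) (by linarith)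
    have h3 : (2 / 3 : ℝ) ≤ Real.log 2 := by linarith [Real.log_two_gt_d9]
    have h4 : Real.log ((r : ℝ) + 1) = Real.log ((j : ℝ) + 2) +
        Real.log (((r : ℝ) + 1) / ((j : ℝ) + 2)) := by
      rw [Real.log_div (by positivity) (by positivity)]
      ring
    have h5 : 0 ≤ Real.log (((r : ℝ) + 1) / ((j : ℝ) + 2)) := by
      apply Real.log_nonneg
      rw [le_div_iff₀ (by positivity)]
      linarith
    have h6 : Real.log (((r : ℝ) + 1) / ((j : ℝ) + 2)) ≤
        Real.log (((r : ℝ) + 1) / ((j : ℝ) + 1)) := by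
      apply Real.log_le_log (by positivity)
      apply div_le_div_of_nonneg_left (by positivity) (by positivity)
      linarith
    have h7 : 1 / Real.log ((j : ℝ) + 2) ≤ 3 / 2 := by
      rw [div_le_iff₀ hLj]
      linarith
    rw [h4, mul_add]
    have h8 : 1 / Real.log ((j : ℝ) + 2) * Real.log ((j : ℝ) + 2) = 1 := by
      field_simp
    rw [h8]
    have h9 : 1 / Real.log ((j : ℝ) + 2) * Real.log (((r : ℝ) + 1) / ((j : ℝ) + 2)) ≤
        3 / 2 * Real.log (((r : ℝ) + 1) / ((j : ℝ) + 2)) := mul_le_mul_of_nonneg_right h7 h5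
    linarith
  refine (Finset.sum_le_sum hterm).trans ?_
  rw [Finset.sum_add_distrib, ← Finset.mul_sum]
  have := log_fact_sum r ((r : ℝ) + 1) (by positivity)
  simp only [Finset.sum_const, Finset.card_range, nsmul_eq_mul, mul_one]
  linarith

lemma tele {r : ℕ} (hr : 1 ≤ r) (t : ℕ) :
    ∑ j ∈ range t, 1 / ((((r + j : ℕ) : ℝ)) * ((r + j : ℕ) + 1)) ≤ 1 / r := by
  have hr' : (0 : ℝ) < r := by exact_mod_cast hr
  have h : ∑ j ∈ range t, 1 / ((((r + j : ℕ) : ℝ)) * ((r + j : ℕ) + 1)) =
      1 / r - 1 / ((r + t : ℕ) : ℝ) := by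
    induction t with
    | zero => simp
    | succ t ih =>
      rw [Finset.sum_range_succ, ih]
      push_cast
      field_simp
      ring
  rw [h]
  have : 0 ≤ 1 / ((r + t : ℕ) : ℝ) := by positivity
  linarith

/-- bound for the exponent N -/
lemma N_bound {r : ℕ} (hr : 1 ≤ r) (n t : ℕ) :
    ∑ l ∈ range (r + t), wt r l * (10 * n / (((l : ℝ) + 1) * Real.log (l + 2))) ≤
      100 * n / (r * Real.log (r + 1)) := by
  have hr' : (1 : ℝ) ≤ r := by exact_mod_cast hr
  have hr0 : (0 : ℝ) < r := by linarith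
  have hL : 0 < Real.log ((r : ℝ) + 1) := Real.log_pos (by linarith)
  have hn0 : (0 : ℝ) ≤ n := Nat.cast_nonneg n
  rw [Finset.sum_range_add]
  have h1 : ∑ l ∈ range r, wt r l * (10 * n / (((l : ℝ) + 1) * Real.log (l + 2))) ≤
      80 * n / (r * Real.log (r + 1)) := by
    have h2 : ∀ l ∈ range r, wt r l * (10 * n / (((l : ℝ) + 1) * Real.log (l + 2))) ≤
        20 * n / (r : ℝ) ^ 2 * (1 / Real.log ((l : ℝ) + 2)) := by
      intro l hl
      have hLl := log_pos' l
      unfold wt
      rw [if_pos (by simpa using hl)]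
      have h3 : (2 * (l : ℝ) + 1) / (r : ℝ) ^ 2 * (10 * n / (((l : ℝ) + 1) * Real.log (l + 2))) =
          (2 * (l : ℝ) + 1) / ((l : ℝ) + 1) * (10 * n / (r : ℝ) ^ 2 * (1 / Real.log ((l : ℝ) + 2))) := by
        field_simp
      rw [h3]
      have h4 : (2 * (l : ℝ) + 1) / ((l : ℝ) + 1) ≤ 2 := by
        rw [div_le_iff₀ (by positivity)]
        linarith
      calc _ ≤ 2 * (10 * n / (r : ℝ) ^ 2 * (1 / Real.log ((l : ℝ) + 2))) :=
            mul_le_mul_of_nonneg_right h4 (by positivity)
        _ = _ := by ring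
    refine (Finset.sum_le_sum h2).trans ?_
    rw [← Finset.mul_sum]
    calc _ ≤ 20 * n / (r : ℝ) ^ 2 * (4 * r / Real.log (r + 1)) :=
          mul_le_mul_of_nonneg_left (sum_inv_log hr) (by positivity)
      _ = _ := by field_simp; ring
  have h5 : ∑ j ∈ range t, wt r (r + j) *
      (10 * n / ((((r + j : ℕ) : ℝ) + 1) * Real.log ((r + j : ℕ) + 2))) ≤
      20 * n / (r * Real.log (r + 1)) := by
    have h2 : ∀ j ∈ range t, wt r (r + j) *
        (10 * n / ((((r + j : ℕ) : ℝ) + 1) * Real.log ((r + j : ℕ) + 2))) ≤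
        20 * n / Real.log (r + 1) * (1 / ((((r + j : ℕ) : ℝ)) * ((r + j : ℕ) + 1))) := by
      intro j _
      unfold wt
      rw [if_neg (by omega)]
      have hq : (0 : ℝ) < ((r + j : ℕ) : ℝ) := by
        exact_mod_cast (by omega : 0 < r + j)
      have hqr : (r : ℝ) ≤ ((r + j : ℕ) : ℝ) := by exact_mod_cast (by omega : r ≤ r + j)
      set q : ℝ := ((r + j : ℕ) : ℝ) with hqdef
      have h3 : Real.log ((q + 1) / q) ≤ 1 / q := by
        have := Real.log_le_sub_one_of_pos (show 0 < (q + 1) / q by positivity)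
        have h4 : (q + 1) / q - 1 = 1 / q := by field_simp; ring
        linarith
      have h30 : 0 ≤ Real.log ((q + 1) / q) := by
        apply Real.log_nonneg
        rw [le_div_iff₀ hq]
        linarith
      have h4 : Real.log ((r : ℝ) + 1) ≤ Real.log (q + 2) :=
        Real.log_le_log (by positivity) (by linarith)
      have h6 : 10 * n / ((q + 1) * Real.log (q + 2)) ≤ 10 * n / ((q + 1) * Real.log (r + 1)) := by
        apply div_le_div_of_nonneg_left (by positivity) (by positivity)
        exact mul_le_mul_of_nonneg_left h4 (by positivity)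
      have hlq : 0 < Real.log (q + 2) := Real.log_pos (by linarith)
      calc 2 * Real.log ((q + 1) / q) * (10 * n / ((q + 1) * Real.log (q + 2)))
          ≤ 2 * (1 / q) * (10 * n / ((q + 1) * Real.log (r + 1))) := by
            apply mul_le_mul _ h6 (by positivity) (by positivity)
            linarith
        _ = _ := by field_simp; ring
    refine (Finset.sum_le_sum h2).trans ?_
    rw [← Finset.mul_sum]
    calc _ ≤ 20 * n / Real.log (r + 1) * (1 / r) :=
          mul_le_mul_of_nonneg_left (tele hr t) (by positivity)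
      _ = _ := by field_simp
  have h6 : (100 : ℝ) * n / (r * Real.log (r + 1)) = 80 * n / (r * Real.log (r + 1)) +
      20 * n / (r * Real.log (r + 1)) := by ring
  rw [h6]
  exact add_le_add h1 h5

/-- bound for the product -/
lemma prod_bound {r : ℕ} (hr : 1 ≤ r) (t : ℕ) :
    ∏ j ∈ range (r + t), (1 - Real.exp (- ∑ l ∈ range (j + 1), wt r l))⁻¹ ≤
      Real.exp (4 * r) := by
  have hr' : (1 : ℝ) ≤ r := by exact_mod_cast hr
  have hr0 : (0 : ℝ) < r := by linarith
  have hpos : ∀ j : ℕ, 0 < 1 - Real.exp (- ∑ l ∈ range (j + 1), wt r l) := by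
    intro j
    have : 0 < ∑ l ∈ range (j + 1), wt r l := by
      apply Finset.sum_pos' (fun l _ => wt_nonneg r l)
      exact ⟨0, by simp, wt_zero hr⟩
    have : Real.exp (- ∑ l ∈ range (j + 1), wt r l) < 1 := by
      rw [Real.exp_lt_one_iff]; linarith
    linarith
  rw [Finset.prod_range_add]
  have h1 : ∏ j ∈ range r, (1 - Real.exp (- ∑ l ∈ range (j + 1), wt r l))⁻¹ ≤
      Real.exp (3 * r) := by
    have h2 : ∀ j ∈ range r, (1 - Real.exp (- ∑ l ∈ range (j + 1), wt r l))⁻¹ ≤
        Real.exp (1 + 2 * Real.log ((r : ℝ) / ((j : ℝ) + 1))) := by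
      intro j hj
      have hj' : j + 1 ≤ r := by simpa using hj
      have hjr : ((j : ℝ) + 1) ≤ r := by exact_mod_cast hj'
      rw [wt_sum_small hj']
      push_cast
      set x : ℝ := ((j : ℝ) + 1) / r with hx
      have hx0 : 0 < x := by positivity
      have hx1 : x ≤ 1 := by rw [hx, div_le_one hr0]; exact hjr
      have hx2 : ((j : ℝ) + 1) ^ 2 / (r : ℝ) ^ 2 = x ^ 2 := by rw [hx, div_pow]
      rw [hx2]
      have hu0 : 0 < x ^ 2 := by positivity
      have hu1 : x ^ 2 ≤ 1 := by nlinarith
      have h3 : x ^ 2 / 2 ≤ 1 - Real.exp (- x ^ 2) := by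
        have h4 : Real.exp (- x ^ 2) ≤ 1 / (1 + x ^ 2) := by
          rw [Real.exp_neg, ← one_div]
          apply one_div_le_one_div_of_le (by positivity)
          linarith [Real.add_one_le_exp (x ^ 2)]
        have h5 : 1 / (1 + x ^ 2) ≤ 1 - x ^ 2 / 2 := by
          rw [div_le_iff₀ (by positivity)]
          nlinarith
        linarith
      have h4 : (r : ℝ) / ((j : ℝ) + 1) = x⁻¹ := by rw [hx, inv_div]
      rw [h4, Real.log_inv, Real.exp_add]
      have h5 : Real.exp (2 * -Real.log x) = (x ^ 2)⁻¹ := by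
        rw [mul_neg, Real.exp_neg]
        congr 1
        rw [mul_comm, Real.exp_mul, Real.exp_log hx0]
        norm_num
      rw [h5]
      calc (1 - Real.exp (- x ^ 2))⁻¹ ≤ (x ^ 2 / 2)⁻¹ := inv_anti₀ (by positivity) h3
        _ = 2 * (x ^ 2)⁻¹ := by rw [inv_div]; ring
        _ ≤ Real.exp 1 * (x ^ 2)⁻¹ := by
          apply mul_le_mul_of_nonneg_right _ (by positivity)
          linarith [Real.add_one_le_exp (1 : ℝ)]
    calc _ ≤ ∏ j ∈ range r, Real.exp (1 + 2 * Real.log ((r : ℝ) / ((j : ℝ) + 1))) := by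
          apply Finset.prod_le_prod
          · intro j _
            exact (inv_pos.mpr (hpos j)).le
          · exact h2
      _ = Real.exp (∑ j ∈ range r, (1 + 2 * Real.log ((r : ℝ) / ((j : ℝ) + 1)))) :=
          (Real.exp_sum _ _).symm
      _ ≤ Real.exp (3 * r) := by
          apply Real.exp_le_exp.mpr
          rw [Finset.sum_add_distrib, ← Finset.mul_sum]
          have := log_fact_sum r (r : ℝ) hr0
          simp only [Finset.sum_const, Finset.card_range, nsmul_eq_mul, mul_one]
          linarith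
  have h6 : ∏ j ∈ range t, (1 - Real.exp (- ∑ l ∈ range (r + j + 1), wt r l))⁻¹ ≤
      Real.exp r := by
    have h2 : ∀ j ∈ range t, (1 - Real.exp (- ∑ l ∈ range (r + j + 1), wt r l))⁻¹ ≤
        Real.exp ((r : ℝ) ^ 2 * (1 / ((((r + j : ℕ) : ℝ)) * ((r + j : ℕ) + 1)))) := by
      intro j _
      have e1 : r + j + 1 = r + (j + 1) := by ring
      rw [e1, wt_sum_large hr]
      have hq : (0 : ℝ) < ((r + j : ℕ) : ℝ) := by
        exact_mod_cast (by omega : 0 < r + j)
      set q : ℝ := ((r + j : ℕ) : ℝ) with hqdef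
      have e2 : ((r : ℝ) + ((j + 1 : ℕ) : ℝ)) = q + 1 := by rw [hqdef]; push_cast; ring
      rw [e2]
      have hqr : (r : ℝ) ≤ q := by rw [hqdef]; exact_mod_cast (by omega : r ≤ r + j)
      have e3 : Real.exp (-(1 + 2 * Real.log ((q + 1) / r))) =
          Real.exp (-1) * ((r : ℝ) / (q + 1)) ^ 2 := by
        rw [neg_add, Real.exp_add]
        congr 1
        rw [← mul_neg, ← Real.log_inv, inv_div, mul_comm, Real.exp_mul, Real.exp_log (by positivity)]
        norm_num
      rw [e3]
      set y : ℝ := Real.exp (-1) * ((r : ℝ) / (q + 1)) ^ 2 with hy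
      have he : Real.exp (-1) ≤ 1 / 2 := by
        rw [Real.exp_neg, ← one_div]
        apply one_div_le_one_div_of_le (by norm_num)
        linarith [Real.add_one_le_exp (1 : ℝ)]
      have hrq : ((r : ℝ) / (q + 1)) ^ 2 ≤ 1 := by
        apply pow_le_one₀ (by positivity)
        rw [div_le_one (by positivity)]
        linarith
      have hy0 : 0 ≤ y := by positivity
      have hy1 : y ≤ 1 / 2 := by
        calc y ≤ Real.exp (-1) * 1 := mul_le_mul_of_nonneg_left hrq (Real.exp_pos _).le
          _ ≤ 1 / 2 := by linarith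
      have h3 : (1 - y)⁻¹ ≤ 1 + 2 * y := by
        rw [inv_le_comm₀ (by linarith) (by linarith), inv_le_iff_one_le_mul₀ (by linarith)]
        nlinarith
      have h4 : 2 * y ≤ (r : ℝ) ^ 2 * (1 / (q * (q + 1))) := by
        have h7 : 2 * y ≤ ((r : ℝ) / (q + 1)) ^ 2 := by
          have h8 : y ≤ 1 / 2 * ((r : ℝ) / (q + 1)) ^ 2 :=
            mul_le_mul_of_nonneg_right he (by positivity)
          linarith
        refine h7.trans ?_
        rw [div_pow, div_eq_mul_one_div]
        apply mul_le_mul_of_nonneg_left _ (by positivity)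
        apply one_div_le_one_div_of_le (by positivity)
        nlinarith
      calc (1 - y)⁻¹ ≤ 1 + 2 * y := h3
        _ ≤ Real.exp (2 * y) := by linarith [Real.add_one_le_exp (2 * y)]
        _ ≤ _ := Real.exp_le_exp.mpr h4
    calc _ ≤ ∏ j ∈ range t, Real.exp ((r : ℝ) ^ 2 *
          (1 / ((((r + j : ℕ) : ℝ)) * ((r + j : ℕ) + 1)))) := by
          apply Finset.prod_le_prod
          · intro j _
            exact (inv_pos.mpr (hpos (r + j))).le
          · exact h2
      _ = Real.exp (∑ j ∈ range t, (r : ℝ) ^ 2 *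
          (1 / ((((r + j : ℕ) : ℝ)) * ((r + j : ℕ) + 1)))) := (Real.exp_sum _ _).symm
      _ ≤ Real.exp r := by
          apply Real.exp_le_exp.mpr
          rw [← Finset.mul_sum]
          calc _ ≤ (r : ℝ) ^ 2 * (1 / r) :=
                mul_le_mul_of_nonneg_left (tele hr t) (by positivity)
            _ = r := by field_simp
  calc _ ≤ Real.exp (3 * r) * Real.exp r := by
        apply mul_le_mul h1 h6 _ (Real.exp_pos _).le
        apply Finset.prod_nonneg
        intro j _
        exact (inv_pos.mpr (hpos (r + j))).le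
    _ = Real.exp (4 * r) := by rw [← Real.exp_add]; ring_nf

lemma log_M_le {r : ℕ} (hr : 1 ≤ r) (n : ℕ) :
    Real.log (M n) ≤ 4 * r + 100 * n / (r * Real.log (r + 1)) := by
  have hr' : (1 : ℝ) ≤ r := by exact_mod_cast hr
  have hL : 0 < Real.log ((r : ℝ) + 1) := Real.log_pos (by linarith)
  rcases Nat.eq_zero_or_pos (M n) with h0 | h0
  · rw [h0]
    simp only [Nat.cast_zero, Real.log_zero]
    positivity
  · have h0' : (0 : ℝ) < M n := by exact_mod_cast h0
    have h1 := M_le (n := n) (R := r + n) (by omega) (wt r) (wt_zero hr) (wt_nonneg r)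
      (fun l => 10 * n / (((l : ℝ) + 1) * Real.log (l + 2))) (fun P hP j => E_real_bound P hP j)
    have h2 : (M n : ℝ) ≤ Real.exp (100 * n / (r * Real.log (r + 1))) * Real.exp (4 * r) := by
      refine h1.trans ?_
      apply mul_le_mul _ (prod_bound hr n) _ (Real.exp_pos _).le
      · exact Real.exp_le_exp.mpr (N_bound hr n n)
      · apply Finset.prod_nonneg
        intro j _
        rw [inv_nonneg, sub_nonneg, Real.exp_le_one_iff]
        have : 0 ≤ ∑ l ∈ range (j + 1), wt r l := Finset.sum_nonneg fun l _ => wt_nonneg r l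
        linarith
    calc Real.log (M n) ≤ Real.log (Real.exp (100 * n / (r * Real.log (r + 1))) *
          Real.exp (4 * r)) := Real.log_le_log h0' h2
      _ = _ := by rw [← Real.exp_add, Real.log_exp]; ring

/-- The sharp upper bound. -/
lemma log_M_le_sharp {n : ℕ} (hn : 2 ≤ n) :
    Real.log (M n) ≤ 408 * √(n / Real.log n) := by
  have hn' : (2 : ℝ) ≤ n := by exact_mod_cast hn
  have hn0 : (0 : ℝ) < n := by linarith
  have hlog : 0 < Real.log n := Real.log_pos (by linarith)
  set s : ℝ := √(n / Real.log n) with hs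
  have hq1 : 1 ≤ (n : ℝ) / Real.log n := by
    rw [le_div_iff₀ hlog]
    linarith [Real.log_le_sub_one_of_pos hn0]
  have hs1 : 1 ≤ s := by
    rw [hs]
    exact Real.one_le_sqrt.mpr hq1
  have hss : s * s = n / Real.log n := Real.mul_self_sqrt (by linarith)
  set r : ℕ := ⌈s⌉₊ with hr
  have hrs : s ≤ r := Nat.le_ceil s
  have hrs2 : (r : ℝ) ≤ 2 * s := by
    have := Nat.ceil_lt_add_one (show 0 ≤ s by linarith)
    linarith
  have hr1 : 1 ≤ r := by
    have : (1 : ℝ) ≤ r := by linarith
    exact_mod_cast this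
  have h1 := log_M_le hr1 n
  have h2 : Real.log n / 4 ≤ Real.log ((r : ℝ) + 1) := by
    have h3 : Real.log s ≤ Real.log ((r : ℝ) + 1) := Real.log_le_log (by linarith) (by linarith)
    have h4 : Real.log s = (Real.log n - Real.log (Real.log n)) / 2 := by
      rw [hs, Real.log_sqrt (by linarith), Real.log_div (by positivity) (by positivity)]
    have h5 : Real.log (Real.log n) ≤ Real.log n / 2 := by
      have h6 := Real.log_le_sub_one_of_pos (show 0 < Real.log n / 2 by positivity)
      rw [Real.log_div (by positivity) (by norm_num)] at h6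
      linarith [Real.log_two_lt_d9]
    linarith
  have h3 : 100 * n / (r * Real.log (r + 1)) ≤ 400 * s := by
    have h4 : 100 * (n : ℝ) / (r * Real.log (r + 1)) ≤ 100 * n / (s * (Real.log n / 4)) := by
      apply div_le_div_of_nonneg_left (by positivity) (by positivity)
      apply mul_le_mul hrs h2 (by positivity) (by positivity)
    have h5 : 100 * (n : ℝ) / (s * (Real.log n / 4)) = 400 * ((n / Real.log n) / s) := by
      field_simp
      norm_num
    rw [h5, ← hss] at h4
    have h6 : s * s / s = s := by field_simp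
    rw [h6] at h4
    exact h4
  linarith

end MP155
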