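import Mathlib
import Pool.Agent.Results.MP_155ab0_nt.Full

/-! Consequence (not a hand-in): `M n < pStar n` for all large `n`. -/

namespace Pool.Agent.Lib.MP155Star

open Finset Filter Topology MP155 Pool.Agent.Results.MP_155ab0_nt.Full

/-- The partitions of `n` into parts that are at most 6 or divisible by 3. -/
def starPartitions (n : ℕ) : Finset (Nat.Partition n) :=
  Finset.univ.filter fun p => ∀ a ∈ p.parts, a ≤ 6 ∨ 3 ∣ a

/-- The number of partitions of `n` into parts that are at most 6 or divisible by 3. -/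
def pStar (n : ℕ) : ℕ := (starPartitions n).card

/-- A partition attached to a set of positive integers. -/
def mkPart (n : ℕ) (A : Finset ℕ) (hA : ∀ a ∈ A, 0 < a) (hs : 3 * ∑ a ∈ A, a ≤ n) :
    Nat.Partition n where
  parts := A.val.map (fun a => 3 * a) + Multiset.replicate (n - 3 * ∑ a ∈ A, a) 1
  parts_pos := by
    intro i hi
    rw [Multiset.mem_add, Multiset.mem_map, Multiset.mem_replicate] at hi
    rcases hi with ⟨a, ha, rfl⟩ | ⟨_, rfl⟩
    · have := hA a ha
      omega
    · norm_num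
  parts_sum := by
    rw [Multiset.sum_add, Multiset.sum_replicate, smul_eq_mul, mul_one]
    have : (A.val.map (fun a => 3 * a)).sum = 3 * ∑ a ∈ A, a := by
      rw [Finset.mul_sum]
      rfl
    rw [this]
    omega

lemma pStar_ge {n k : ℕ} (hk : 3 * (k * (k + 1)) ≤ 2 * n) : 2 ^ k ≤ pStar n := by
  classical
  have hsum : ∀ A ∈ (Finset.Icc 1 k).powerset, 3 * ∑ a ∈ A, a ≤ n := by
    intro A hA
    rw [Finset.mem_powerset] at hA
    have h1 : ∑ a ∈ A, a ≤ ∑ a ∈ Finset.Icc 1 k, a :=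
      Finset.sum_le_sum_of_subset hA
    have h2 : (∑ a ∈ Finset.Icc 1 k, a) * 2 = k * (k + 1) := by
      have := Finset.sum_range_id_mul_two (k + 1)
      have h3 : ∑ a ∈ Finset.Icc 1 k, a = ∑ a ∈ Finset.range (k + 1), a := by
        rw [Finset.range_eq_Ico, Finset.sum_eq_sum_Ico_succ_bot (by omega)]
        simp only [zero_add]
        rfl
      rw [h3, this]
      simp [mul_comm]
    omega
  have hpos : ∀ A ∈ (Finset.Icc 1 k).powerset, ∀ a ∈ A, 0 < a := by
    intro A hA a ha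
    rw [Finset.mem_powerset] at hA
    have := Finset.mem_Icc.mp (hA ha)
    omega
  have hcard : (Finset.Icc 1 k).powerset.card = 2 ^ k := by
    rw [Finset.card_powerset]
    simp
  rw [← hcard]
  unfold pStar
  apply Finset.card_le_card_of_injOn
    (fun A => if h : (∀ a ∈ A, 0 < a) ∧ 3 * ∑ a ∈ A, a ≤ n then mkPart n A h.1 h.2 else
      Nat.Partition.indiscrete n)
  · intro A hA
    have hA' : A ∈ (Finset.Icc 1 k).powerset := hA
    have h : (∀ a ∈ A, 0 < a) ∧ 3 * ∑ a ∈ A, a ≤ n := ⟨hpos A hA', hsum A hA'⟩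
    simp only [dif_pos h]
    unfold starPartitions
    rw [Finset.coe_filter]
    refine ⟨Finset.mem_univ _, ?_⟩
    intro a ha
    unfold mkPart at ha
    simp only [Multiset.mem_add, Multiset.mem_map, Multiset.mem_replicate] at ha
    rcases ha with ⟨b, _, rfl⟩ | ⟨_, rfl⟩
    · right; exact dvd_mul_right _ _
    · left; norm_num
  · intro A hA B hB hAB
    have hA' : A ∈ (Finset.Icc 1 k).powerset := hA
    have hB' : B ∈ (Finset.Icc 1 k).powerset := hB
    have h : (∀ a ∈ A, 0 < a) ∧ 3 * ∑ a ∈ A, a ≤ n := ⟨hpos A hA', hsum A hA'⟩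
    have h' : (∀ a ∈ B, 0 < a) ∧ 3 * ∑ a ∈ B, a ≤ n := ⟨hpos B hB', hsum B hB'⟩
    simp only [dif_pos h, dif_pos h'] at hAB
    have h1 : (mkPart n A h.1 h.2).parts = (mkPart n B h'.1 h'.2).parts := by rw [hAB]
    unfold mkPart at h1
    simp only at h1
    have key : ∀ C : Finset ℕ, ∀ m x : ℕ,
        (3 * x ∈ C.val.map (fun a => 3 * a) + Multiset.replicate m 1) ↔ x ∈ C := by
      intro C m x
      rw [Multiset.mem_add, Multiset.mem_map, Multiset.mem_replicate]
      constructor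
      · rintro (⟨a, ha, hax⟩ | ⟨_, h⟩)
        · have : a = x := by omega
          rwa [this] at ha
        · omega
      · intro hx
        exact Or.inl ⟨x, hx, rfl⟩
    ext x
    rw [← key A (n - 3 * ∑ a ∈ A, a) x, ← key B (n - 3 * ∑ a ∈ B, a) x, h1]

lemma log_pStar_ge {n : ℕ} (hn : 1 ≤ n) : (√n / 2 - 1) * Real.log 2 ≤ Real.log (pStar n) := by
  set k : ℕ := ⌊√(n : ℝ) / 2⌋₊ with hk
  have h0 : 0 ≤ √(n : ℝ) / 2 := by positivity
  have h1 : (k : ℝ) ≤ √(n : ℝ) / 2 := Nat.floor_le h0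
  have h2 : √(n : ℝ) / 2 - 1 ≤ k := by
    have := Nat.lt_floor_add_one (√(n : ℝ) / 2)
    linarith
  have h3 : 3 * (k * (k + 1)) ≤ 2 * n := by
    have h4 : (4 : ℝ) * ((k : ℝ) * k) ≤ n := by
      have h5 : √(n : ℝ) * √(n : ℝ) = n := Real.mul_self_sqrt (Nat.cast_nonneg n)
      nlinarith [Nat.cast_nonneg (α := ℝ) k]
    have h6 : 4 * (k * k) ≤ n := by exact_mod_cast h4
    rcases Nat.eq_zero_or_pos k with h7 | h7
    · rw [h7]; omega
    · nlinarith
  have h4 := pStar_ge h3
  have h5 : (k : ℝ) * Real.log 2 ≤ Real.log (pStar n) := by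
    rw [← Real.log_pow]
    apply Real.log_le_log (by positivity)
    exact_mod_cast h4
  have h6 : 0 < Real.log 2 := Real.log_pos (by norm_num)
  calc (√n / 2 - 1) * Real.log 2 ≤ k * Real.log 2 := mul_le_mul_of_nonneg_right h2 h6.le
    _ ≤ _ := h5

lemma eventually_lt : ∀ᶠ n : ℕ in atTop, M n < pStar n := by
  have h1 : ∀ᶠ n : ℕ in atTop, 408 / √(Real.log (n : ℝ)) < 1 / 10 :=
    tendsto_bound.eventually (gt_mem_nhds (by norm_num))
  filter_upwards [h1, eventually_ge_atTop 100] with n hn1 hn2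
  have hn' : (100 : ℝ) ≤ n := by exact_mod_cast hn2
  have hs : (10 : ℝ) ≤ √(n : ℝ) := by
    rw [show (10 : ℝ) = √(100 : ℝ) by
      rw [show (100 : ℝ) = 10 ^ 2 by norm_num, Real.sqrt_sq (by norm_num)]]
    exact Real.sqrt_le_sqrt hn'
  have h2 := ratio_le (n := n) (by omega)
  have h3 : Real.log (M n) < 1 / 10 * √n := by
    rw [div_le_iff₀ (by linarith)] at h2
    calc Real.log (M n) ≤ 408 / √(Real.log (n : ℝ)) * √n := h2
      _ < 1 / 10 * √n := mul_lt_mul_of_pos_right hn1 (by linarith)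
  have h4 := log_pStar_ge (n := n) (by omega)
  have h5 : 1 / 10 * √(n : ℝ) ≤ (√n / 2 - 1) * Real.log 2 := by
    have := Real.log_two_gt_d9
    nlinarith
  have h6 : Real.log (M n) < Real.log (pStar n) := by linarith
  by_contra hcon
  have h7 : pStar n ≤ M n := not_lt.mp hcon
  rcases Nat.eq_zero_or_pos (pStar n) with h8 | h8
  · rw [h8] at h6
    simp only [Nat.cast_zero, Real.log_zero] at h6
    linarith [Real.log_natCast_nonneg (M n)]
  · have h9 : (0 : ℝ) < pStar n := by exact_mod_cast h8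
    have : Real.log (pStar n) ≤ Real.log (M n) := Real.log_le_log h9 (by exact_mod_cast h7)
    linarith

end Pool.Agent.Lib.MP155Star
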